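import Mathlib

/-!
# Cash thresholds in interval subtraction games: an explicit formula and quasi-periodicity

For `1 ≤ L ≤ M` and `A = {L, …, M}` the cash thresholds of the subtraction game on `A` are
computed in closed form and shown to satisfy `f (n + L + M) = f n + M` for all large `n`.
-/

namespace Pool.Agent.Results.MP_88cfb8_co.ExplicitThresholds

/-- The player who moves first (Player I) wins the subtraction game on `{L, …, M}` from a pile of
`n` stones: some legal move (remove `a` stones, `L ≤ a ≤ M`, `0 < a ≤ n`) leads to a pile from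
which the next player to move does not win.  A player without a legal move loses. -/
def PlayerOneWins (L M : ℕ) (n : ℕ) : Prop :=
  ∃ a, ∃ _ : 0 < a ∧ a ≤ n, L ≤ a ∧ a ≤ M ∧ ¬ PlayerOneWins L M (n - a)
termination_by n
decreasing_by omega

/-- `fI` and `fII` are the cash thresholds of the subtraction game on `{L, …, M}`: they satisfy
the defining recursion. -/
structure IsCashThreshold (L M : ℕ) (fI fII : ℕ → ℕ) : Prop where
  small : ∀ n, n < L → fI n = 0 ∧ fII n = 0
  two : ∀ n, L ≤ n →
    IsGreatest {c | ∃ a, L ≤ a ∧ a ≤ M ∧ a ≤ n ∧ c = fI (n - a)} (fII n)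
  one_of_wins : ∀ n, L ≤ n → PlayerOneWins L M n →
    IsLeast {c | ∃ a, L ≤ a ∧ a ≤ M ∧ a ≤ n ∧ ¬ PlayerOneWins L M (n - a) ∧
      c = fII (n - a) + a} (fI n)
  one_of_not_wins : ∀ n, L ≤ n → ¬ PlayerOneWins L M n →
    IsLeast {c | ∃ a, L ≤ a ∧ a ≤ M ∧ a ≤ n ∧ fI (n - a) = fII n ∧
      c = fII (n - a) + a} (fI n)

/-- The profile of the thresholds: `0` below `L`, then `L`, then slope one from `2 L - 1` on. -/
def phi (L t : ℕ) : ℕ := if t < L then 0 else max L (t + 1 - L)

lemma playerOneWins_iff (L M n : ℕ) : PlayerOneWins L M n ↔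
    ∃ a, (0 < a ∧ a ≤ n) ∧ L ≤ a ∧ a ≤ M ∧ ¬ PlayerOneWins L M (n - a) := by
  rw [PlayerOneWins]
  constructor
  · rintro ⟨a, h1, h2⟩; exact ⟨a, h1, h2⟩
  · rintro ⟨a, h1, h2⟩; exact ⟨a, h1, h2⟩

lemma divmod (P k r : ℕ) (hr : r < P) : (k * P + r) / P = k ∧ (k * P + r) % P = r := by
  rw [Nat.div_mod_unique (by omega)]
  refine ⟨by ring, hr⟩

lemma wins_iff_mod (L M : ℕ) (hL : 1 ≤ L) (hLM : L ≤ M) (n : ℕ) :
    PlayerOneWins L M n ↔ L ≤ n % (L + M) := by
  induction n using Nat.strong_induction_on with
  | _ n ih =>
    rw [playerOneWins_iff]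
    have hP : 0 < L + M := by omega
    constructor
    · rintro ⟨a, ⟨ha0, han⟩, haL, haM, hw⟩
      rw [ih (n - a) (by omega)] at hw
      have h1 := Nat.div_add_mod' (n - a) (L + M)
      have h2 : n = (n - a) / (L + M) * (L + M) + ((n - a) % (L + M) + a) := by omega
      rw [h2, (divmod _ _ _ (by omega)).2]
      omega
    · intro h
      have h1 := Nat.div_add_mod' n (L + M)
      have h3 := Nat.mod_lt n hP
      refine ⟨min (n % (L + M)) M, ⟨by omega, by omega⟩, by omega, by omega, ?_⟩
      rw [ih _ (by omega)]
      have h2 : n - min (n % (L + M)) M =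
          n / (L + M) * (L + M) + (n % (L + M) - min (n % (L + M)) M) := by omega
      rw [h2, (divmod _ _ _ (by omega)).2]
      omega

/-- The closed form of the first threshold. -/
def F1 (L M n : ℕ) : ℕ :=
  n / (L + M) * L + phi L (n % (L + M) + n / (L + M) * (M - L))

/-- The closed form of the second threshold. -/
def F2 (L M n : ℕ) : ℕ :=
  if n % (L + M) < L then
    n / (L + M) * L + (n % (L + M) + n / (L + M) * (M - L) + 1 - L)
  else
    max (n / (L + M) * L + phi L (n % (L + M) + n / (L + M) * (M - L) - L))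
      (if n % (L + M) < M then n / (L + M) * M else 0)

lemma F1_eq (L M k r : ℕ) (hr : r < L + M) :
    F1 L M (k * (L + M) + r) = k * L + phi L (r + k * (M - L)) := by
  unfold F1
  rw [(divmod _ _ _ hr).1, (divmod _ _ _ hr).2]

lemma F2_lt (L M k r : ℕ) (hr : r < L + M) (h : r < L) :
    F2 L M (k * (L + M) + r) = k * L + (r + k * (M - L) + 1 - L) := by
  unfold F2
  rw [(divmod _ _ _ hr).1, (divmod _ _ _ hr).2, if_pos h]

lemma F2_ge (L M k r : ℕ) (hr : r < L + M) (h : L ≤ r) :
    F2 L M (k * (L + M) + r) =
      max (k * L + phi L (r + k * (M - L) - L)) (if r < M then k * M else 0) := by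
  unfold F2
  rw [(divmod _ _ _ hr).1, (divmod _ _ _ hr).2, if_neg (by omega)]

lemma phi_mono (L : ℕ) {s t : ℕ} (h : s ≤ t) : phi L s ≤ phi L t := by
  unfold phi; split_ifs <;> omega

theorem isCashThreshold_F (L M : ℕ) (hL : 1 ≤ L) (hLM : L ≤ M) :
    IsCashThreshold L M (F1 L M) (F2 L M) := by
  have hP : 0 < L + M := by omega
  have hdec : ∀ n, ∃ k r, r < L + M ∧ n = k * (L + M) + r := fun n =>
    ⟨n / (L + M), n % (L + M), Nat.mod_lt _ hP, (Nat.div_add_mod' n (L + M)).symm⟩
  refine ⟨?_, ?_, ?_, ?_⟩
  · intro n hn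
    have h0 : n = 0 * (L + M) + n := by omega
    constructor
    · rw [h0, F1_eq _ _ _ _ (by omega)]
      unfold phi; split_ifs <;> omega
    · rw [h0, F2_lt _ _ _ _ (by omega) hn]; omega
  · intro n hn
    obtain ⟨k, r, hr, rfl⟩ := hdec n
    by_cases hrL : r < L
    · obtain ⟨K, rfl⟩ : ∃ K, k = K + 1 := by
        cases k with
        | zero => omega
        | succ K => exact ⟨K, rfl⟩
      rw [F2_lt _ _ _ _ hr hrL]
      have e1 : (K + 1) * (L + M) = K * (L + M) + (L + M) := by ring
      have e2 : (K + 1) * L = K * L + L := by ring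
      have e3 : (K + 1) * (M - L) = K * (M - L) + (M - L) := by ring
      constructor
      · refine ⟨L, le_refl _, hLM, by omega, ?_⟩
        have h1 : (K + 1) * (L + M) + r - L = K * (L + M) + (r + M) := by omega
        rw [h1, F1_eq _ _ _ _ (by omega)]
        unfold phi; split_ifs <;> omega
      · rintro c ⟨a, ha1, ha2, ha3, rfl⟩
        have h1 : (K + 1) * (L + M) + r - a = K * (L + M) + (r + (L + M) - a) := by omega
        rw [h1, F1_eq _ _ _ _ (by omega)]
        unfold phi; split_ifs <;> omega
    · rw [F2_ge _ _ _ _ hr (by omega)]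
      have e4 : k * M = k * L + k * (M - L) := by
        rw [← Nat.mul_add]; congr 1; omega
      constructor
      · rcases le_total (if r < M then k * M else 0) (k * L + phi L (r + k * (M - L) - L)) with h | h
        · rw [max_eq_left h]
          refine ⟨L, le_refl _, hLM, by omega, ?_⟩
          have h1 : k * (L + M) + r - L = k * (L + M) + (r - L) := by omega
          rw [h1, F1_eq _ _ _ _ (by omega)]
          congr 2; omega
        · rw [max_eq_right h]
          by_cases hrM : r < M
          · rw [if_pos hrM] at h ⊢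
            cases k with
            | zero =>
              refine ⟨L, le_refl _, hLM, by omega, ?_⟩
              have h1 : 0 * (L + M) + r - L = 0 * (L + M) + (r - L) := by omega
              rw [h1, F1_eq _ _ _ _ (by omega)]
              have : r + 0 * (M - L) - L = r - L + 0 * (M - L) := by omega
              rw [this] at h
              omega
            | succ K =>
              have e1 : (K + 1) * (L + M) = K * (L + M) + (L + M) := by ring
              have e5 : (K + 1) * M = K * M + M := by ring
              have e6 : K * M = K * L + K * (M - L) := by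
                rw [← Nat.mul_add]; congr 1; omega
              refine ⟨r + 1, by omega, by omega, by omega, ?_⟩
              have h1 : (K + 1) * (L + M) + r - (r + 1) = K * (L + M) + (L + M - 1) := by omega
              rw [h1, F1_eq _ _ _ _ (by omega)]
              unfold phi; split_ifs <;> omega
          · rw [if_neg hrM] at h ⊢
            refine ⟨L, le_refl _, hLM, by omega, ?_⟩
            have h1 : k * (L + M) + r - L = k * (L + M) + (r - L) := by omega
            rw [h1, F1_eq _ _ _ _ (by omega)]
            have : r + k * (M - L) - L = r - L + k * (M - L) := by omega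
            rw [this] at h
            omega
      · rintro c ⟨a, ha1, ha2, ha3, rfl⟩
        by_cases har : a ≤ r
        · have h1 : k * (L + M) + r - a = k * (L + M) + (r - a) := by omega
          rw [h1, F1_eq _ _ _ _ (by omega)]
          refine le_trans ?_ (le_max_left _ _)
          have := phi_mono L (show r - a + k * (M - L) ≤ r + k * (M - L) - L by omega)
          omega
        · cases k with
          | zero => omega
          | succ K =>
            have e1 : (K + 1) * (L + M) = K * (L + M) + (L + M) := by ring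
            have e5 : (K + 1) * M = K * M + M := by ring
            have e6 : K * M = K * L + K * (M - L) := by
              rw [← Nat.mul_add]; congr 1; omega
            have h1 : (K + 1) * (L + M) + r - a = K * (L + M) + (r + (L + M) - a) := by omega
            rw [h1, F1_eq _ _ _ _ (by omega), if_pos (show r < M by omega)]
            refine le_trans ?_ (le_max_right _ _)
            unfold phi; split_ifs <;> omega
  · intro n hn hw
    rw [wins_iff_mod L M hL hLM] at hw
    obtain ⟨k, r, hr, rfl⟩ := hdec n
    rw [(divmod _ _ _ hr).2] at hw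
    rw [F1_eq _ _ _ _ hr]
    constructor
    · refine ⟨r - min (L - 1) (r - L), by omega, by omega, by omega, ?_, ?_⟩
      · have h1 : k * (L + M) + r - (r - min (L - 1) (r - L)) =
            k * (L + M) + min (L - 1) (r - L) := by omega
        rw [wins_iff_mod L M hL hLM, h1, (divmod _ _ _ (by omega)).2]
        omega
      · have h1 : k * (L + M) + r - (r - min (L - 1) (r - L)) =
            k * (L + M) + min (L - 1) (r - L) := by omega
        rw [h1, F2_lt _ _ _ _ (by omega) (by omega)]
        unfold phi; split_ifs <;> omega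
    · rintro c ⟨a, ha1, ha2, ha3, hnw, rfl⟩
      rw [wins_iff_mod L M hL hLM] at hnw
      by_cases har : a ≤ r
      · have h1 : k * (L + M) + r - a = k * (L + M) + (r - a) := by omega
        rw [h1, (divmod _ _ _ (by omega)).2] at hnw
        rw [h1, F2_lt _ _ _ _ (by omega) (by omega)]
        unfold phi; split_ifs <;> omega
      · cases k with
        | zero => omega
        | succ K =>
          have e1 : (K + 1) * (L + M) = K * (L + M) + (L + M) := by ring
          have h1 : (K + 1) * (L + M) + r - a = K * (L + M) + (r + (L + M) - a) := by omega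
          rw [h1, (divmod _ _ _ (by omega)).2] at hnw
          omega
  · intro n hn hw
    rw [wins_iff_mod L M hL hLM] at hw
    obtain ⟨k, r, hr, rfl⟩ := hdec n
    rw [(divmod _ _ _ hr).2] at hw
    obtain ⟨K, rfl⟩ : ∃ K, k = K + 1 := by
      cases k with
      | zero => omega
      | succ K => exact ⟨K, rfl⟩
    rw [F1_eq _ _ _ _ hr, F2_lt _ _ _ _ hr (by omega)]
    have e1 : (K + 1) * (L + M) = K * (L + M) + (L + M) := by ring
    have e2 : (K + 1) * L = K * L + L := by ring
    have e3 : (K + 1) * (M - L) = K * (M - L) + (M - L) := by ring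
    constructor
    · have h1 : (K + 1) * (L + M) + r - L = K * (L + M) + (r + M) := by omega
      refine ⟨L, le_refl _, hLM, by omega, ?_, ?_⟩
      · rw [h1, F1_eq _ _ _ _ (by omega)]
        unfold phi; split_ifs <;> omega
      · rw [h1, F2_ge _ _ _ _ (by omega) (by omega), if_neg (by omega), e2, e3]
        unfold phi; split_ifs <;> omega
    · rintro c ⟨a, ha1, ha2, ha3, hF, rfl⟩
      have h1 : (K + 1) * (L + M) + r - a = K * (L + M) + (r + (L + M) - a) := by omega
      rw [h1, F1_eq _ _ _ _ (by omega)] at hF
      rw [h1, F2_ge _ _ _ _ (by omega) (by omega)]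
      have h2 := le_max_left (K * L + phi L (r + (L + M) - a + K * (M - L) - L))
        (if r + (L + M) - a < M then K * M else 0)
      have h3 : (K + 1) * L + phi L (r + (K + 1) * (M - L)) ≤
          K * L + phi L (r + (L + M) - a + K * (M - L) - L) + a := by
        rw [e2, e3]
        rw [e2, e3] at hF
        unfold phi at hF ⊢
        split_ifs at hF ⊢ <;> omega
      omega

theorem unique (L M : ℕ) (hL : 1 ≤ L) (hLM : L ≤ M) {fI fII gI gII : ℕ → ℕ}
    (hf : IsCashThreshold L M fI fII) (hg : IsCashThreshold L M gI gII) :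
    ∀ n, fI n = gI n ∧ fII n = gII n := by
  intro n
  induction n using Nat.strong_induction_on with
  | _ n ih =>
    by_cases hn : n < L
    · have h1 := hf.small n hn
      have h2 := hg.small n hn
      exact ⟨h1.1.trans h2.1.symm, h1.2.trans h2.2.symm⟩
    rw [not_lt] at hn
    have h2 : fII n = gII n := by
      have a1 := hf.two n hn
      have a2 := hg.two n hn
      have hs : {c | ∃ a, L ≤ a ∧ a ≤ M ∧ a ≤ n ∧ c = fI (n - a)} =
          {c | ∃ a, L ≤ a ∧ a ≤ M ∧ a ≤ n ∧ c = gI (n - a)} := by
        ext c
        constructor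
        · rintro ⟨a, b1, b2, b3, b4⟩
          exact ⟨a, b1, b2, b3, b4.trans (ih (n - a) (by omega)).1⟩
        · rintro ⟨a, b1, b2, b3, b4⟩
          exact ⟨a, b1, b2, b3, b4.trans (ih (n - a) (by omega)).1.symm⟩
      rw [hs] at a1
      exact a1.unique a2
    refine ⟨?_, h2⟩
    by_cases hw : PlayerOneWins L M n
    · have a1 := hf.one_of_wins n hn hw
      have a2 := hg.one_of_wins n hn hw
      have hs : {c | ∃ a, L ≤ a ∧ a ≤ M ∧ a ≤ n ∧ ¬ PlayerOneWins L M (n - a) ∧
            c = fII (n - a) + a} =
          {c | ∃ a, L ≤ a ∧ a ≤ M ∧ a ≤ n ∧ ¬ PlayerOneWins L M (n - a) ∧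
            c = gII (n - a) + a} := by
        ext c
        constructor
        · rintro ⟨a, b1, b2, b3, b5, b4⟩
          exact ⟨a, b1, b2, b3, b5, by rw [b4, (ih (n - a) (by omega)).2]⟩
        · rintro ⟨a, b1, b2, b3, b5, b4⟩
          exact ⟨a, b1, b2, b3, b5, by rw [b4, (ih (n - a) (by omega)).2]⟩
      rw [hs] at a1
      exact a1.unique a2
    · have a1 := hf.one_of_not_wins n hn hw
      have a2 := hg.one_of_not_wins n hn hw
      have hs : {c | ∃ a, L ≤ a ∧ a ≤ M ∧ a ≤ n ∧ fI (n - a) = fII n ∧
            c = fII (n - a) + a} =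
          {c | ∃ a, L ≤ a ∧ a ≤ M ∧ a ≤ n ∧ gI (n - a) = gII n ∧
            c = gII (n - a) + a} := by
        ext c
        constructor
        · rintro ⟨a, b1, b2, b3, b5, b4⟩
          have := ih (n - a) (by omega)
          exact ⟨a, b1, b2, b3, by rw [← this.1, b5, h2], by rw [b4, this.2]⟩
        · rintro ⟨a, b1, b2, b3, b5, b4⟩
          have := ih (n - a) (by omega)
          exact ⟨a, b1, b2, b3, by rw [this.1, b5, h2], by rw [b4, this.2]⟩
      rw [hs] at a1
      exact a1.unique a2

theorem shift (L M : ℕ) (hL : 1 ≤ L) (hLM : L ≤ M) (n : ℕ) (hn : 2 * L * (L + M) ≤ n) :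
    F1 L M (n + (L + M)) = F1 L M n + M ∧ F2 L M (n + (L + M)) = F2 L M n + M := by
  have hP : 0 < L + M := by omega
  obtain ⟨k, r, hr, rfl⟩ : ∃ k r, r < L + M ∧ n = k * (L + M) + r :=
    ⟨n / (L + M), n % (L + M), Nat.mod_lt _ hP, (Nat.div_add_mod' n (L + M)).symm⟩
  have hk : 2 * L ≤ k := by
    by_contra hlt
    rw [not_le] at hlt
    have : (k + 1) * (L + M) ≤ 2 * L * (L + M) := Nat.mul_le_mul_right _ hlt
    have e : (k + 1) * (L + M) = k * (L + M) + (L + M) := by ring
    omega
  have h1 : k * (L + M) + r + (L + M) = (k + 1) * (L + M) + r := by ring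
  have e2 : (k + 1) * L = k * L + L := by ring
  have e3 : (k + 1) * (M - L) = k * (M - L) + (M - L) := by ring
  have e5 : (k + 1) * M = k * M + M := by ring
  have e6 : k * M = k * L + k * (M - L) := by
    rw [← Nat.mul_add]; congr 1; omega
  have hd : M - L = 0 ∨ 2 * L ≤ k * (M - L) := by
    rcases Nat.eq_zero_or_pos (M - L) with h | h
    · exact Or.inl h
    · right
      calc 2 * L ≤ k := hk
        _ = k * 1 := (mul_one k).symm
        _ ≤ k * (M - L) := Nat.mul_le_mul_left k h
  rw [h1]
  constructor
  · rw [F1_eq _ _ _ _ hr, F1_eq _ _ _ _ hr, e2, e3]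
    rcases hd with hd | hd
    · rw [hd]; simp only [Nat.mul_zero, Nat.add_zero]; omega
    · unfold phi; split_ifs <;> omega
  · by_cases hrL : r < L
    · rw [F2_lt _ _ _ _ hr hrL, F2_lt _ _ _ _ hr hrL, e2, e3]
      rcases hd with hd | hd
      · rw [hd]; simp only [Nat.mul_zero, Nat.add_zero]; omega
      · omega
    · rw [F2_ge _ _ _ _ hr (by omega), F2_ge _ _ _ _ hr (by omega), e2, e3, e5]
      rcases hd with hd | hd
      · rw [hd]; simp only [Nat.mul_zero, Nat.add_zero]
        rw [if_neg (by omega), if_neg (by omega)]; omega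
      · unfold phi; split_ifs <;> omega

/-- **Cash thresholds of interval subtraction games.**  Let `1 ≤ L ≤ M`.  The defining recursion
has exactly one solution `(fI, fII)`; the first threshold has the closed form
`fI (k (L + M) + r) = k L + phi (r + k (M - L))` for `r < L + M`, and both thresholds satisfy
`f (n + L + M) = f n + M` for every `n ≥ 2 L (L + M)`. -/
theorem result (L M : ℕ) (hL : 1 ≤ L) (hLM : L ≤ M) :
    ∃ fI fII : ℕ → ℕ, IsCashThreshold L M fI fII ∧
      (∀ gI gII : ℕ → ℕ, IsCashThreshold L M gI gII → gI = fI ∧ gII = fII) ∧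
      (∀ k r : ℕ, r < L + M → fI (k * (L + M) + r) = k * L + phi L (r + k * (M - L))) ∧
      ∀ n : ℕ, 2 * L * (L + M) ≤ n →
        fI (n + (L + M)) = fI n + M ∧ fII (n + (L + M)) = fII n + M := by
  refine ⟨F1 L M, F2 L M, isCashThreshold_F L M hL hLM, ?_, ?_, ?_⟩
  · intro gI gII hg
    have := unique L M hL hLM hg (isCashThreshold_F L M hL hLM)
    exact ⟨funext fun n => (this n).1, funext fun n => (this n).2⟩
  · intro k r hr
    exact F1_eq L M k r hr
  · intro n hn
    exact shift L M hL hLM n hn

end Pool.Agent.Results.MP_88cfb8_co.ExplicitThresholds
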